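import Mathlib

set_option autoImplicit false

namespace Pool.Agent.X236

/-- placeholder fact -/
theorem basic_fact : (1 : ℕ) + 1 = 2 := rfl

end Pool.Agent.X236
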